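import Pool.Agent.Helper81K1.RP.Core

/-!
# Values of `n ^ 2 - 2` without small prime factors, at every scale, and arbitrary colourings

Let `0 < ε ≤ 1` and colour the positive integers with at most `X ^ (ε / 14016)` colours, `X` large. Then there
are colours `a`, `b`, `c` such that
* `n ^ 2 - 2 = A B` with `A` of colour `a`, `B` of colour `b` for at least `X ^ (1 - ε)` odd `n ≤ X`,
* `(n ^ 2 - 2) / 2 = B C`, colours `b` and `c`, for at least `X ^ (1 - ε)` of the `n ≤ X`, `n ≡ 2` modulo `4`,
* `(n ^ 2 - 2) / 2 = A C`, colours `a` and `c`, for at least `X ^ (1 - ε)` of the `n ≤ X`, `n ≡ 0` modulo `4`,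
and all the prime factors of `A`, `B`, `C` are larger than `X ^ (ε / 14016)` (so that their number is bounded).

The colouring may depend on `X`. Example: let `S` be any set of primes (depending on `X`) and colour `m` by the
parity of the number of its prime factors in `S` (for instance the parity of `Ω(m)`). The parities of the numbers
of prime factors in `S` of the three families of values are `a + b`, `b + c`, `a + c`: at every scale `X` the
families `n` odd, `n ≡ 2`, `n ≡ 0` modulo `4` take, for at least `X ^ (1 - ε)` of their almost prime values,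
parities with an even sum, and so at least one of them takes the even parity.

Method (`Pool/Agent/Helper81K1/RP`). If `u, v` are vectors with determinant `1` and `q = x ^ 2 - 2 y ^ 2`, then
`q(u) q(v) = n ^ 2 - 2`. A lower bound sieve gives many triangles `u, v, u + v` with norms free of small primes, as in
`Pool/Agent/H505R2` (starting files, helper505: `n ^ 2 + 1` and `Ω` modulo `2`, result `RoughParityTrichotomy`). The
form is indefinite now, and there are infinitely many units; the triangles are taken in the cone `0 ≤ 2 y ≤ x`, in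
which a vector is determined by its ideal, so that each `n` comes from at most `d(n ^ 2 - 2)` triangles.
-/

set_option autoImplicit false

namespace Pool.Agent.Results.MP_0b748d_nt.RoughFactorsAllScales

/-- `m > 1`, and all prime factors of `m` are larger than `y`. -/
def Rough (y : ℝ) (m : ℕ) : Prop := 1 < m ∧ ∀ p : ℕ, p.Prime → p ∣ m → y < p

/-- The number of the integers `0 ≤ n ≤ X`, `n ≡ r` modulo `k`, with `n ^ 2 - 2 = s A B`, where all prime factors
of `A > 1` and `B > 1` are larger than `y`, and `A` has the colour `a`, `B` has the colour `b`. -/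
noncomputable def count {K : Type} (f : ℕ → K) (y : ℝ) (X k r s : ℕ) (a b : K) : ℕ :=
  Set.ncard {n : ℕ | n ≤ X ∧ n % k = r ∧ ∃ A B : ℕ, n ^ 2 = s * (A * B) + 2 ∧
    (Rough y A ∧ f A = a) ∧ (Rough y B ∧ f B = b)}

/-- **Theorem.** Let `0 < ε ≤ 1`. For all large `X` and every colouring `f` of the natural numbers with at most
`X ^ (ε / 14016)` colours there are colours `a`, `b`, `c` such that `n ^ 2 - 2 = A B` for at least `X ^ (1 - ε)`
odd `n ≤ X`, `(n ^ 2 - 2) / 2 = B C` for at least `X ^ (1 - ε)` of the `n ≤ X`, `n ≡ 2` modulo `4`, and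
`(n ^ 2 - 2) / 2 = A C` for at least `X ^ (1 - ε)` of the `n ≤ X`, `n ≡ 0` modulo `4`, where `A`, `B`, `C` have
the colours `a`, `b`, `c`, and all their prime factors are larger than `X ^ (ε / 14016)`. -/
theorem result (ε : ℝ) (hε : 0 < ε) (hε1 : ε ≤ 1) : ∃ X₀ : ℕ, ∀ X : ℕ, X₀ ≤ X →
    ∀ (K : Type) [Finite K] (f : ℕ → K), (Nat.card K : ℝ) ≤ (X : ℝ) ^ (ε / 14016) →
      ∃ a b c : K,
        (X : ℝ) ^ (1 - ε) ≤ count f ((X : ℝ) ^ (ε / 14016)) X 2 1 1 a b ∧
        (X : ℝ) ^ (1 - ε) ≤ count f ((X : ℝ) ^ (ε / 14016)) X 4 2 2 b c ∧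
        (X : ℝ) ^ (1 - ε) ≤ count f ((X : ℝ) ^ (ε / 14016)) X 4 0 2 a c := by
  obtain ⟨X₀, hX₀⟩ := Filter.eventually_atTop.1 (Pool.Agent.Helper81K1.RP.core ε hε hε1)
  refine ⟨X₀, fun X hX K _ f hK => ?_⟩
  obtain ⟨I, hI, h⟩ := hX₀ X hX
  obtain ⟨a, b, c, h1, h2, h3⟩ := h K f hK
  have key : ∀ (r k s : ℕ) (a b : K),
      ((Pool.Agent.Helper81K1.RP.TB f r k s I X a b).card : ℝ) ≤
        count f ((X : ℝ) ^ (ε / 14016)) X k r s a b := by
    intro r k s a b
    unfold count
    rw [← Set.ncard_coe_finset]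
    refine Nat.cast_le.2 (Set.ncard_le_ncard ?_ ((Set.finite_Iic X).subset fun _ hN => hN.1))
    intro n hn
    rw [Finset.mem_coe, Pool.Agent.Helper81K1.RP.mem_TB] at hn
    obtain ⟨hn1, hn2, A, B, hAB, ⟨hA1, hA2, hA3⟩, hB1, hB2, hB3⟩ := hn
    have big : ∀ m : ℕ, Pool.Agent.H505R2.Lg I m → ∀ p : ℕ, p.Prime → p ∣ m →
        (X : ℝ) ^ (ε / 14016) < p := by
      intro m hm p hp hd
      have h6 : ((2 ^ 2 ^ I : ℕ) : ℝ) < p := by exact_mod_cast hm p hp hd
      push_cast at h6
      exact hI.trans h6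
    refine ⟨hn1, hn2, A, B, ?_, ⟨⟨hA1, big A hA2⟩, hA3⟩, ⟨hB1, big B hB2⟩, hB3⟩
    have h7 : ((n ^ 2 : ℕ) : ℤ) = ((s * (A * B) + 2 : ℕ) : ℤ) := by
      push_cast
      linarith
    exact_mod_cast h7
  exact ⟨a, b, c, h1.trans (by exact_mod_cast key 1 2 1 a b),
    h2.trans (by exact_mod_cast key 2 4 2 b c), h3.trans (by exact_mod_cast key 0 4 2 a c)⟩

end Pool.Agent.Results.MP_0b748d_nt.RoughFactorsAllScales
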