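import Pool.Agent.Helper97.TV.Main

set_option autoImplicit false

/-!
# Three values of a completely additive function at the numbers `n ^ 2 - 2`

Let `f` be a completely additive function from the positive integers to a finite abelian group `H` such
that the values of `f` at the primes `p ≡ ±1 (mod 8)` (the odd primes which divide numbers `n ^ 2 - 2`)
generate a subgroup with at least three elements. Then `f (n ^ 2 - 2)` takes at least three different
values, each of them often. For `f = Ω mod 3`: all three residue classes modulo `3` are taken by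
`Ω (n ^ 2 - 2)`.

The engine (descent through the edges of determinant one of a quadratic form) is that of the starting
files `Pool.Agent.H359R3` and `Pool.Agent.H359R4`, where the case `n ^ 2 + 1` is treated; new are the
rigidity for the indefinite form `x ^ 2 + 4 x y + 2 y ^ 2` and the primitive elements of `ℤ[√2]` of small
slope whose norm is a power `p ^ k` with `k ≡ ±1` modulo a given number.
-/

namespace Pool.Agent.Results.MP_0b748d_nt.ThreeValues

/-- The integers `n` of `(X, 2 X]` with `f (n ^ 2 - 2) = h` such that `n ^ 2 - 2 = s ^ 2 m` with a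
squarefree number `m` and `s ≤ (log X) ^ 45`. -/
def valueSet {H : Type} (f : ℕ → H) (h : H) (X : ℕ) : Set ℕ :=
  {n : ℕ | X < n ∧ n ≤ 2 * X ∧ f (n ^ 2 - 2) = h ∧
    ∃ s m : ℕ, n ^ 2 - 2 = s ^ 2 * m ∧ Squarefree m ∧ (s : ℝ) ≤ Real.log X ^ 45}

/-- `Ω`, the number of the prime factors, counted with multiplicity, modulo `3`. -/
def omegaModThree (n : ℕ) : ZMod 3 := (n.primeFactorsList.length : ZMod 3)

theorem result :
    (∀ (H : Type) [AddCommGroup H] [Finite H] (f : ℕ → H),
      (∀ a b : ℕ, a ≠ 0 → b ≠ 0 → f (a * b) = f a + f b) →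
      3 ≤ Nat.card (AddSubgroup.closure
        {x : H | ∃ p : ℕ, p.Prime ∧ (p % 8 = 1 ∨ p % 8 = 7) ∧ f p = x}) →
      ∃ S : Finset H, S.card = 3 ∧ ∀ h ∈ S, ∀ X₀ : ℕ, ∃ X : ℕ, X₀ ≤ X ∧
        (X : ℝ) / Real.log X ^ 41 ≤ ((valueSet f h X).ncard : ℝ)) ∧
    (∀ r : ZMod 3, ∀ X₀ : ℕ, ∃ X : ℕ, X₀ ≤ X ∧
      (X : ℝ) / Real.log X ^ 41 ≤ ((valueSet omegaModThree r X).ncard : ℝ)) := by
  have main : ∀ (H : Type) [AddCommGroup H] [Finite H] (f : ℕ → H),
      (∀ a b : ℕ, a ≠ 0 → b ≠ 0 → f (a * b) = f a + f b) →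
      3 ≤ Nat.card (AddSubgroup.closure
        {x : H | ∃ p : ℕ, p.Prime ∧ (p % 8 = 1 ∨ p % 8 = 7) ∧ f p = x}) →
      ∃ S : Finset H, S.card = 3 ∧ ∀ h ∈ S, ∀ X₀ : ℕ, ∃ X : ℕ, X₀ ≤ X ∧
        (X : ℝ) / Real.log X ^ 41 ≤ ((valueSet f h X).ncard : ℝ) := by
    intro H _ _ f hf hp
    have he : {x : H | ∃ p : ℕ, p.Prime ∧ (p % 8 = 1 ∨ p % 8 = 7) ∧ f p = x} =
        {x : H | ∃ p : ℕ, Pool.Agent.Helper97.TV.PS p ∧ f p = x} := by
      ext x
      constructor
      · rintro ⟨p, h1, h2, h3⟩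
        exact ⟨p, ⟨h1, h2⟩, h3⟩
      · rintro ⟨p, ⟨h1, h2⟩, h3⟩
        exact ⟨p, h1, h2, h3⟩
    rw [he] at hp
    exact Pool.Agent.Helper97.TV.three_values f hf hp
  refine ⟨main, ?_⟩
  have hf : ∀ a b : ℕ, a ≠ 0 → b ≠ 0 →
      omegaModThree (a * b) = omegaModThree a + omegaModThree b := by
    intro a b ha hb
    unfold omegaModThree
    rw [(Nat.perm_primeFactorsList_mul ha hb).length_eq, List.length_append]
    push_cast
    rfl
  have htop : AddSubgroup.closure
      {x : ZMod 3 | ∃ p : ℕ, p.Prime ∧ (p % 8 = 1 ∨ p % 8 = 7) ∧ omegaModThree p = x} = ⊤ := by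
    rw [eq_top_iff]
    intro x _
    have h1 : (1 : ZMod 3) ∈ AddSubgroup.closure
        {x : ZMod 3 | ∃ p : ℕ, p.Prime ∧ (p % 8 = 1 ∨ p % 8 = 7) ∧ omegaModThree p = x} := by
      apply AddSubgroup.subset_closure
      refine ⟨7, by norm_num, Or.inr rfl, ?_⟩
      unfold omegaModThree
      rw [Nat.primeFactorsList_prime (by norm_num)]
      simp
    have h2 := AddSubgroup.nsmul_mem _ h1 x.val
    have h3 : x.val • (1 : ZMod 3) = x := by
      rw [nsmul_eq_mul, mul_one, ZMod.natCast_zmod_val]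
    rwa [h3] at h2
  obtain ⟨S, hS, hmain⟩ := main (ZMod 3) omegaModThree hf (by
    rw [htop, Nat.card_congr (AddSubgroup.topEquiv (G := ZMod 3)).toEquiv, Nat.card_zmod])
  have hSu : S = Finset.univ := by
    rw [← Finset.card_eq_iff_eq_univ, hS]
    rfl
  intro r
  exact hmain r (by rw [hSu]; exact Finset.mem_univ _)

end Pool.Agent.Results.MP_0b748d_nt.ThreeValues
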